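import Mathlib

set_option autoImplicit false

namespace Pool.Agent.Results.MP_6a28f0_gt.Scheepers
open Set Filter Topology

universe u

/-- Weakly Lindelof. -/
def WL (X : Type u) [TopologicalSpace X] : Prop :=
  ∀ 𝒰 : Set (Set X), (∀ U ∈ 𝒰, IsOpen U) → ⋃₀ 𝒰 = univ →
    ∃ 𝒱 ⊆ 𝒰, 𝒱.Countable ∧ Dense (⋃₀ 𝒱)

/-- Weakly Menger. -/
def WM (X : Type u) [TopologicalSpace X] : Prop :=
  ∀ 𝒰 : ℕ → Set (Set X), (∀ n, (∀ U ∈ 𝒰 n, IsOpen U) ∧ ⋃₀ 𝒰 n = univ) →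
    ∃ 𝒱 : ℕ → Set (Set X), (∀ n, 𝒱 n ⊆ 𝒰 n ∧ (𝒱 n).Finite) ∧ Dense (⋃ n, ⋃₀ 𝒱 n)

/-- Weakly Scheepers. -/
def WS (X : Type u) [TopologicalSpace X] : Prop :=
  ∀ 𝒰 : ℕ → Set (Set X), (∀ n, (∀ U ∈ 𝒰 n, IsOpen U) ∧ ⋃₀ 𝒰 n = univ) →
    ∃ 𝒱 : ℕ → Set (Set X), (∀ n, 𝒱 n ⊆ 𝒰 n ∧ (𝒱 n).Finite) ∧
      ∀ ℱ : Set (Set X), ℱ.Finite → (∀ U ∈ ℱ, IsOpen U ∧ U.Nonempty) →
        {n | ∀ U ∈ ℱ, (U ∩ ⋃₀ 𝒱 n).Nonempty}.Infinite

theorem WL.idx {X : Type u} [TopologicalSpace X] (h : WL X) {ι : Type*} (U : ι → Set X)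
    (h1 : ∀ i, IsOpen (U i)) (h2 : ∀ x, ∃ i, x ∈ U i) :
    ∃ t : Set ι, t.Countable ∧ Dense (⋃ i ∈ t, U i) := by
  obtain ⟨𝒱, h3, h4, h5⟩ := h (range U) (by rintro _ ⟨i, rfl⟩; exact h1 i)
    (eq_univ_of_forall fun x => (h2 x).elim fun i hi => ⟨_, ⟨i, rfl⟩, hi⟩)
  choose g hg using fun V : 𝒱 => h3 V.2
  have := h4.to_subtype
  refine ⟨range g, countable_range g, h5.mono ?_⟩
  rintro x ⟨V, h6, h7⟩
  exact mem_iUnion₂.2 ⟨g ⟨V, h6⟩, mem_range_self _, by rw [hg]; exact h7⟩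

theorem WL.map {X Y : Type u} [TopologicalSpace X] [TopologicalSpace Y] (h : WL X) {f : X → Y}
    (hf : Continuous f) (hs : Function.Surjective f) : WL Y := by
  intro 𝒰 h1 h2
  obtain ⟨t, h3, h4⟩ := h.idx (fun U : 𝒰 => f ⁻¹' U) (fun U => (h1 U U.2).preimage hf)
    fun x => by
      obtain ⟨U, h, h'⟩ := eq_univ_iff_forall.1 h2 (f x)
      exact ⟨⟨U, h⟩, h'⟩
  refine ⟨Subtype.val '' t, by rintro _ ⟨U, -, rfl⟩; exact U.2, h3.image _,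
    (hs.denseRange.dense_image hf h4).mono ?_⟩
  rintro _ ⟨x, hx, rfl⟩
  obtain ⟨U, h5, h6⟩ := mem_iUnion₂.1 hx
  exact ⟨U, ⟨U, h5, rfl⟩, h6⟩

section
variable (D : ℕ → Type u) [∀ n, Preorder (D n)]

/-- The test space: ultrafilters on a product of directed sets. -/
def YY : Set (Ultrafilter (∀ n, D n)) :=
  {p | (∃ g : ∀ n, D n, {h | ∀ n, ¬ g n ≤ h n} ∈ p) ∨ ∃ n, ∀ d, {h | d ≤ h n} ∈ p}

theorem pure_mem (h : ∀ n, D n) : pure h ∈ YY D := by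
  by_cases H : ∃ n, ∀ d, d ≤ h n
  · exact Or.inr H
  · push Not at H
    choose g hg using H
    exact Or.inl ⟨g, hg⟩

/-- Principal points. -/
def pp (h : ∀ n, D n) : YY D := ⟨pure h, pure_mem D h⟩

variable {D}

theorem trace {O : Set (YY D)} (hO : IsOpen O) {p : YY D} (hp : p ∈ O) :
    {h | pp D h ∈ O} ∈ p.1 := by
  obtain ⟨O', h1, rfl⟩ := isOpen_induced_iff.1 hO
  obtain ⟨_, ⟨s, rfl⟩, h2, h3⟩ := ultrafilterBasis_is_basis.exists_subset_of_mem_open hp h1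
  exact mem_of_superset h2 fun h hh => h3 hh

theorem fin_cover {𝒞 : Set (Set (YY D))} (h1 : ∀ U ∈ 𝒞, IsOpen U) (h2 : ⋃₀ 𝒞 = univ)
    (F : Filter (∀ n, D n)) (hF : ∀ p : Ultrafilter (∀ n, D n), ↑p ≤ F → p ∈ YY D) :
    ∃ 𝒱 ⊆ 𝒞, 𝒱.Finite ∧ {h | pp D h ∈ ⋃₀ 𝒱} ∈ F := by
  have hK : IsCompact {p : YY D | (p.1 : Filter _) ≤ F} := by
    rw [Subtype.isCompact_iff]
    have : Subtype.val '' {p : YY D | (p.1 : Filter _) ≤ F} = ⋂ s ∈ F, {p | s ∈ p} := by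
      ext p
      simp only [mem_image, mem_iInter]
      exact ⟨fun ⟨q, h, e⟩ s hs => e ▸ h hs, fun h => ⟨⟨p, hF p h⟩, h, rfl⟩⟩
    rw [this]
    exact (isClosed_biInter fun s _ => ultrafilter_isClosed_basic s).isCompact
  obtain ⟨𝒱, h3, h4, h5⟩ := hK.elim_finite_subcover_image (c := id) h1
    (fun p _ => by simpa using eq_univ_iff_forall.1 h2 p)
  refine ⟨𝒱, h3, h4, mem_iff_ultrafilter.2 fun p hp => ?_⟩
  refine trace (p := ⟨p, hF p hp⟩) (isOpen_sUnion fun U h => h1 U (h3 h)) ?_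
  rw [sUnion_eq_biUnion]
  exact h5 hp

theorem wl_YY [∀ n, IsDirectedOrder (D n)] [∀ n, Nonempty (D n)] : WL (YY D) := by
  intro 𝒞 h1 h2
  choose 𝒱 h3 h4 h5 using fun n => fin_cover h1 h2 (comap (fun h => h n) atTop)
    fun p hp => Or.inr ⟨n, fun d => hp (preimage_mem_comap (Ici_mem_atTop d))⟩
  have : ∀ n, ∃ d : D n, ∀ h : ∀ n, D n, d ≤ h n → pp D h ∈ ⋃₀ 𝒱 n := fun n => by
    obtain ⟨s, hs, h⟩ := mem_comap.1 (h5 n)
    obtain ⟨d, hd⟩ := mem_atTop_sets.1 hs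
    exact ⟨d, fun g hg => h (hd _ hg)⟩
  choose g hg using this
  obtain ⟨𝒲, h6, h7, h8⟩ := fin_cover h1 h2 (𝓟 {h | ∀ n, ¬ g n ≤ h n})
    fun p hp => Or.inl ⟨g, le_principal_iff.1 hp⟩
  refine ⟨𝒲 ∪ ⋃ n, 𝒱 n, union_subset h6 (iUnion_subset h3),
    h7.countable.union (countable_iUnion fun n => (h4 n).countable),
    dense_iff_inter_open.2 fun O hO ⟨p, hp⟩ => ?_⟩
  obtain ⟨h, hh⟩ := p.1.nonempty_of_mem (trace hO hp)
  refine ⟨_, hh, ?_⟩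
  by_cases H : ∃ n, g n ≤ h n
  · obtain ⟨n, hn⟩ := H
    obtain ⟨V, h9, h10⟩ := hg n h hn
    exact ⟨V, Or.inr (mem_iUnion.2 ⟨n, h9⟩), h10⟩
  · obtain ⟨V, h9, h10⟩ := h8 (not_exists.1 H)
    exact ⟨V, Or.inl h9, h10⟩

theorem select [∀ n, Nonempty (D n)] {Z : Type u} [TopologicalSpace Z] (hZ : WL (Z × YY D))
    (f : ∀ n, D n → Set Z) (h1 : ∀ n d, IsOpen (f n d)) (h2 : ∀ n, Monotone (f n))
    (h3 : ∀ n z, ∃ d, z ∈ f n d) : ∃ h : ∀ n, D n, Dense (⋃ n, f n (h n)) := by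
  have ho : ∀ s, IsOpen {p : YY D | s ∈ p.1} := fun s =>
    (ultrafilter_isOpen_basic s).preimage continuous_subtype_val
  obtain ⟨t, h4, h5⟩ := hZ.idx (ι := (∀ n, D n) ⊕ Σ n, D n)
    (Sum.elim (fun g => univ ×ˢ {p | {h | ∀ n, ¬ g n ≤ h n} ∈ p.1})
      fun d => f d.1 d.2 ×ˢ {p | {h | d.2 ≤ h d.1} ∈ p.1})
    (by
      rintro (g | d)
      · exact isOpen_univ.prod (ho _)
      · exact (h1 _ _).prod (ho _))
    (by
      rintro ⟨z, p, ⟨g, hg⟩ | ⟨n, hn⟩⟩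
      · exact ⟨.inl g, trivial, hg⟩
      · obtain ⟨d, hd⟩ := h3 n z
        exact ⟨.inr ⟨n, d⟩, hd, hn d⟩)
  obtain ⟨g, hg⟩ := countable_iff_exists_subset_range.1 (h4.preimage Sum.inl_injective)
  refine ⟨fun n => g n n, dense_iff_inter_open.2 fun O hO ⟨z, hz⟩ => ?_⟩
  obtain ⟨⟨w, p⟩, ⟨h6, h7⟩, h8⟩ := h5.inter_open_nonempty _ (hO.prod (ho {fun n => g n n}))
    ⟨(z, pp D fun n => g n n), hz, rfl⟩
  obtain ⟨k | ⟨n, d⟩, h9, h10, h11⟩ := mem_iUnion₂.1 h8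
  · obtain ⟨i, rfl⟩ := hg h9
    obtain ⟨_, rfl, h⟩ := p.1.nonempty_of_mem (inter_mem h7 h11)
    exact absurd le_rfl (h i)
  · obtain ⟨_, rfl, h⟩ := p.1.nonempty_of_mem (inter_mem h7 h11)
    exact ⟨w, h6, mem_iUnion.2 ⟨n, h2 n h h10⟩⟩

end

theorem step {X Y : Type u} [TopologicalSpace X] [TopologicalSpace Y] (hY : WL Y)
    (h : ∀ k, WL ((Fin k → X) × Y) → WL (X × ((Fin k → X) × Y))) (k : ℕ) :
    WL ((Fin k → X) × Y) := by
  induction k with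
  | zero =>
    exact hY.map (f := fun y => (Fin.elim0, y)) (by fun_prop)
      fun ⟨a, y⟩ => ⟨y, Prod.ext (Subsingleton.elim _ _) rfl⟩
  | succ k ih =>
    refine (h k ih).map (f := fun q => (Fin.cons q.1 q.2.1, q.2.2)) ?_
      fun ⟨a, y⟩ => ⟨(a 0, Fin.tail a, y), by simp⟩
    refine Continuous.prodMk (continuous_pi fun i => ?_) continuous_snd.snd
    cases i using Fin.cases
    · exact continuous_fst
    · simp only [Fin.cons_succ]; fun_prop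

theorem ws_of {X : Type u} [TopologicalSpace X]
    (H : ∀ (Y : Type u) [TopologicalSpace Y] [T35Space Y], WL Y → ∀ k, WL ((Fin k → X) × Y)) :
    WS X := by
  intro 𝒰 hU
  let D : ℕ → Type u := fun n => {𝒱 : Set (Set X) // 𝒱 ⊆ 𝒰 n ∧ 𝒱.Finite}
  have i1 : ∀ n, Nonempty (D n) := fun n => ⟨⟨∅, empty_subset _, finite_empty⟩⟩
  have i2 : ∀ n, IsDirectedOrder (D n) := fun n => ⟨fun a b =>
    ⟨⟨a.1 ∪ b.1, union_subset a.2.1 b.2.1, a.2.2.union b.2.2⟩,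
      (subset_union_left : a.1 ⊆ a.1 ∪ b.1), (subset_union_right : b.1 ⊆ a.1 ∪ b.1)⟩⟩
  choose h hh using fun k => select (D := fun m => D (Nat.pair k m)) (H _ wl_YY k)
    (fun m d => univ.pi fun _ => ⋃₀ d.1)
    (fun m d => isOpen_set_pi finite_univ fun _ _ =>
      isOpen_sUnion fun U h => (hU _).1 U (d.2.1 h))
    (fun m a b hab => pi_mono fun _ _ => sUnion_mono hab)
    (fun m z => by
      choose U h1 h2 using fun i => eq_univ_iff_forall.1 (hU (Nat.pair k m)).2 (z i)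
      exact ⟨⟨range U, range_subset_iff.2 h1, finite_range U⟩,
        fun i _ => ⟨U i, ⟨i, rfl⟩, h2 i⟩⟩)
  refine ⟨fun n => (h n.unpair.1 n.unpair.2).1, fun n => ?_, fun ℱ h1 h2 => ?_⟩
  · have := (h n.unpair.1 n.unpair.2).2
    exact ⟨this.1.trans (by rw [Nat.pair_unpair]), this.2⟩
  rcases ℱ.eq_empty_or_nonempty with rfl | ⟨U0, h0⟩
  · simpa using infinite_univ
  obtain ⟨k, e, he⟩ := h1.fin_embedding
  refine infinite_of_forall_exists_gt fun a => ?_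
  let φ : Fin (k + a + 1) → Set X := fun i => if h : i.1 < k then e ⟨i, h⟩ else U0
  have hφ : ∀ i, φ i ∈ ℱ := fun i => by
    simp only [φ]
    split_ifs
    · exact he ▸ ⟨_, rfl⟩
    · exact h0
  obtain ⟨z, h3, h4⟩ := (hh (k + a + 1)).inter_open_nonempty (univ.pi φ)
    (isOpen_set_pi finite_univ fun i _ => (h2 _ (hφ i)).1)
    (univ_pi_nonempty_iff.2 fun i => (h2 _ (hφ i)).2)
  obtain ⟨m, hm⟩ := mem_iUnion.1 h4
  refine ⟨Nat.pair (k + a + 1) m, fun U hU => ?_,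
    lt_of_lt_of_le (by omega) (Nat.left_le_pair _ _)⟩
  obtain ⟨i, rfl⟩ : U ∈ range e := he ▸ hU
  have := h3 ⟨i, by omega⟩ trivial
  simp only [φ, i.2, dif_pos] at this
  refine ⟨_, this, ?_⟩
  have h5 := hm ⟨i, by omega⟩ trivial
  beta_reduce
  rw [Nat.unpair_pair]
  exact h5

theorem WS.wm {X : Type u} [TopologicalSpace X] (h : WS X) : WM X := by
  intro 𝒰 hU
  obtain ⟨𝒱, h1, h2⟩ := h 𝒰 hU
  refine ⟨𝒱, h1, dense_iff_inter_open.2 fun O hO hO' => ?_⟩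
  obtain ⟨n, hn⟩ := (h2 {O} (finite_singleton _) (by rintro _ rfl; exact ⟨hO, hO'⟩)).nonempty
  obtain ⟨x, h3, h4⟩ := hn O rfl
  exact ⟨x, h3, mem_iUnion.2 ⟨n, h4⟩⟩

/-- Productively weakly Lindelof spaces are weakly Scheepers and weakly Menger; the same holds
inside the class of Tychonoff spaces. -/
theorem result :
    (∀ (X : Type u) [TopologicalSpace X],
      (∀ (Y : Type u) [TopologicalSpace Y], WL Y → WL (X × Y)) → WS X ∧ WM X) ∧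
    (∀ (X : Type u) [TopologicalSpace X] [T35Space X],
      (∀ (Y : Type u) [TopologicalSpace Y] [T35Space Y], WL Y → WL (X × Y)) → WS X ∧ WM X) := by
  refine ⟨fun X _ H => ?_, fun X _ _ H => ?_⟩
  · have := ws_of fun Y _ _ hY => step hY fun k => H _
    exact ⟨this, this.wm⟩
  · have := ws_of fun Y _ _ hY => step hY fun k => H _
    exact ⟨this, this.wm⟩

end Pool.Agent.Results.MP_6a28f0_gt.Scheepers
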